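import Mathlib

set_option autoImplicit false

namespace Pool.Agent.Helper14.SOL

universe u

/-- Two independent commuting elements generate a free abelian group of rank two. -/
theorem s5 {Γ : Type u} [Group Γ] (a b : Γ) (hab : a * b = b * a)
    (hi : ∀ i j : ℤ, a ^ i * b ^ j = 1 → i = 0 ∧ j = 0) :
    Nonempty (Subgroup.closure {a, b} ≃* Multiplicative (ℤ × ℤ)) := by
  have hcomm : Commute a b := hab
  let ψ : Multiplicative (ℤ × ℤ) →* Γ :=
    { toFun := fun x => a ^ (Multiplicative.toAdd x).1 * b ^ (Multiplicative.toAdd x).2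
      map_one' := by simp
      map_mul' := by
        intro x y
        simp only [toAdd_mul, Prod.fst_add, Prod.snd_add, zpow_add]
        have e := (hcomm.zpow_zpow (Multiplicative.toAdd y).1 (Multiplicative.toAdd x).2).eq
        calc a ^ (Multiplicative.toAdd x).1 * a ^ (Multiplicative.toAdd y).1 *
              (b ^ (Multiplicative.toAdd x).2 * b ^ (Multiplicative.toAdd y).2)
            = a ^ (Multiplicative.toAdd x).1 * (a ^ (Multiplicative.toAdd y).1 *
              b ^ (Multiplicative.toAdd x).2) * b ^ (Multiplicative.toAdd y).2 := by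
              group
          _ = a ^ (Multiplicative.toAdd x).1 * (b ^ (Multiplicative.toAdd x).2 *
              a ^ (Multiplicative.toAdd y).1) * b ^ (Multiplicative.toAdd y).2 := by
              rw [e]
          _ = _ := by group }
  have hψ : ∀ i j : ℤ, ψ (Multiplicative.ofAdd (i, j)) = a ^ i * b ^ j := fun i j => rfl
  have hinj : Function.Injective ψ := by
    rw [injective_iff_map_eq_one]
    intro x hx
    obtain ⟨⟨i, j⟩, rfl⟩ := Multiplicative.ofAdd.surjective x
    obtain ⟨h1, h2⟩ := hi i j hx
    rw [h1, h2]
    rfl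
  have hr : ψ.range = Subgroup.closure {a, b} := by
    apply le_antisymm
    · rintro _ ⟨x, rfl⟩
      have ha : a ∈ Subgroup.closure {a, b} := Subgroup.subset_closure (by simp)
      have hb : b ∈ Subgroup.closure {a, b} := Subgroup.subset_closure (by simp)
      exact mul_mem (zpow_mem ha _) (zpow_mem hb _)
    · rw [Subgroup.closure_le]
      rintro x (rfl | rfl)
      · refine ⟨Multiplicative.ofAdd (1, 0), ?_⟩
        rw [hψ, zpow_one, zpow_zero, mul_one]
      · refine ⟨Multiplicative.ofAdd (0, 1), ?_⟩
        rw [hψ, zpow_one, zpow_zero, one_mul]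
  exact ⟨((MonoidHom.ofInjective hinj).trans (MulEquiv.subgroupCongr hr)).symm⟩

end Pool.Agent.Helper14.SOL
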